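import Pool.Agent.H306R2.RZ.Defs
import Pool.Agent.H708R2.RZ_E1

set_option autoImplicit false

namespace Pool.Agent.H706R2.RZE2

open Finset Filter Topology MeasureTheory Pool.Agent.H306R2.RZ

noncomputable section

def ff (k : ℤ) (c : ℕ) (n : ℕ) : ℝ := if Squarefree n ∧ n.Coprime c then js k n else 0

lemma js_abs_le (k : ℤ) (n : ℕ) : |js k n| ≤ 1 := by
  unfold js
  rcases jacobiSym.trichotomy k n with h | h | h <;> simp [h]

lemma ff_abs_le (k : ℤ) (c n : ℕ) : |ff k c n| ≤ 1 := by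
  unfold ff
  split_ifs
  · exact js_abs_le k n
  · simp

lemma js_mul (k : ℤ) (a b : ℕ) (ha : a ≠ 0) (hb : b ≠ 0) : js k (a*b) = js k a * js k b := by
  unfold js
  rw [jacobiSym.mul_right' k ha hb]; push_cast; rfl

lemma aux1 (p1 p2 p3 p4 p5 : Prop) [Decidable p1] [Decidable p2] [Decidable p3] [Decidable p4]
    [Decidable p5] (x y : ℝ) :
    (if (p1 ∧ p2 ∧ p3) ∧ p4 ∧ p5 then x * y else 0) =
      (if p2 ∧ p4 then x else 0) * (if p3 ∧ p5 then y else 0) * (if p1 then 1 else 0) := by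
  by_cases h1 : p1 <;> by_cases h2 : p2 <;> by_cases h3 : p3 <;>
    by_cases h4 : p4 <;> by_cases h5 : p5 <;> simp [h1, h2, h3, h4, h5]

lemma aux2 (p1 p2 p3 p4 p5 : Prop) [Decidable p1] [Decidable p2] [Decidable p3] [Decidable p4]
    [Decidable p5] (x y : ℝ) :
    (if (p1 ∧ p2 ∧ p3) ∧ p4 ∧ p5 then x * y else 0) =
      (if p2 ∧ p4 then x else 0) * (if p3 ∧ p5 ∧ p1 then y else 0) := by
  by_cases h1 : p1 <;> by_cases h2 : p2 <;> by_cases h3 : p3 <;>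
    by_cases h4 : p4 <;> by_cases h5 : p5 <;> simp [h1, h2, h3, h4, h5]

lemma term_eq (k : ℤ) (c a b : ℕ) (ha : a ≠ 0) (hb : b ≠ 0) :
    (if Squarefree (a * b) ∧ (a * b).Coprime c then js k (a * b) else 0) =
      ff k c a * ff k c b * (if a.Coprime b then 1 else 0) := by
  unfold ff
  rw [js_mul k a b ha hb]
  simp only [Nat.squarefree_mul_iff, Nat.coprime_mul_iff_left]
  exact aux1 _ _ _ _ _ _ _

lemma moeb_sum (n : ℕ) : (∑ g ∈ n.divisors, ((ArithmeticFunction.moebius g : ℤ) : ℝ)) =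
    if n = 1 then 1 else 0 := by
  have h := ArithmeticFunction.moebius_mul_coe_zeta
  have h2 := congrArg (fun f : ArithmeticFunction ℤ => f n) h
  simp only [ArithmeticFunction.coe_mul_zeta_apply, ArithmeticFunction.one_apply] at h2
  rw [← Int.cast_sum, h2]
  split_ifs <;> simp

lemma coprime_ind (M a b : ℕ) (ha : 1 ≤ a) (haM : a ≤ M) :
    (if a.Coprime b then (1 : ℝ) else 0) =
      ∑ g ∈ Icc 1 M, ((ArithmeticFunction.moebius g : ℤ) : ℝ) *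
        ((if g ∣ a then 1 else 0) * (if g ∣ b then 1 else 0)) := by
  have h0 : a.gcd b ≠ 0 := by
    have := Nat.gcd_pos_of_pos_left b (show 0 < a by omega)
    omega
  have h1 := moeb_sum (a.gcd b)
  have h2 : (if a.Coprime b then (1 : ℝ) else 0) = if a.gcd b = 1 then 1 else 0 := rfl
  rw [h2, ← h1]
  have h3 : (a.gcd b).divisors = (Icc 1 M).filter (fun g => g ∣ a ∧ g ∣ b) := by
    ext g
    simp only [Nat.mem_divisors, Finset.mem_filter, Finset.mem_Icc, Nat.dvd_gcd_iff]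
    constructor
    · rintro ⟨⟨h, h'⟩, _⟩
      refine ⟨⟨Nat.pos_of_dvd_of_pos h (by omega), ?_⟩, h, h'⟩
      exact le_trans (Nat.le_of_dvd (by omega) h) haM
    · rintro ⟨_, h⟩
      exact ⟨h, h0⟩
  rw [h3, Finset.sum_filter]
  refine Finset.sum_congr rfl fun g _ => ?_
  by_cases h4 : g ∣ a <;> by_cases h5 : g ∣ b <;> simp [h4, h5]

lemma ff_mul (k : ℤ) (c g a : ℕ) (hg : g ≠ 0) (ha : a ≠ 0) :
    ff k c (g * a) = ff k c g * ff k (c * g) a := by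
  unfold ff
  rw [js_mul k g a hg ha]
  have hsym : g.Coprime a ↔ a.Coprime g := Nat.coprime_comm
  simp only [Nat.squarefree_mul_iff, Nat.coprime_mul_iff_left, Nat.coprime_mul_iff_right, hsym]
  exact aux2 _ _ _ _ _ _ _

lemma sum_dvd (k : ℤ) (c g M : ℕ) (hg : 1 ≤ g) :
    ∑ a ∈ Icc 1 M, ff k c a * (if g ∣ a then 1 else 0) =
      ff k c g * ∑ a ∈ Icc 1 (M / g), ff k (c * g) a := by
  have h1 : ∑ a ∈ Icc 1 M, ff k c a * (if g ∣ a then 1 else 0) =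
      ∑ a ∈ (Icc 1 M).filter (fun a => g ∣ a), ff k c a := by
    rw [Finset.sum_filter]
    refine Finset.sum_congr rfl fun a _ => ?_
    split_ifs <;> simp
  rw [h1, Finset.mul_sum]
  symm
  refine Finset.sum_bij (fun a _ => g * a) ?_ ?_ ?_ ?_
  · intro a ha
    simp only [Finset.mem_Icc, Finset.mem_filter] at ha ⊢
    refine ⟨⟨?_, ?_⟩, dvd_mul_right g a⟩
    · nlinarith
    · calc g * a ≤ g * (M / g) := Nat.mul_le_mul_left g ha.2
        _ ≤ M := Nat.mul_div_le M g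
  · intro a _ b _ h
    exact Nat.eq_of_mul_eq_mul_left (by omega) h
  · intro b hb
    simp only [Finset.mem_Icc, Finset.mem_filter] at hb
    obtain ⟨⟨hb1, hb2⟩, d, hd⟩ := hb
    refine ⟨d, ?_, hd.symm⟩
    simp only [Finset.mem_Icc]
    refine ⟨?_, ?_⟩
    · rcases Nat.eq_zero_or_pos d with h | h
      · subst h; omega
      · exact h
    · rw [Nat.le_div_iff_mul_le (by omega)]
      rw [mul_comm]; omega
  · intro a ha
    simp only [Finset.mem_Icc] at ha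
    exact (ff_mul k c g a (by omega) (by omega)).symm

lemma main_eq (k : ℤ) (c M1 M2 : ℕ) :
    (∑ a ∈ Icc 1 M1, ∑ b ∈ Icc 1 M2,
      if Squarefree (a * b) ∧ (a * b).Coprime c then js k (a * b) else 0) =
      ∑ g ∈ Icc 1 M1, ((ArithmeticFunction.moebius g : ℤ) : ℝ) *
        ((ff k c g * ∑ a ∈ Icc 1 (M1 / g), ff k (c * g) a) *
          (ff k c g * ∑ b ∈ Icc 1 (M2 / g), ff k (c * g) b)) := by
  have h1 : (∑ a ∈ Icc 1 M1, ∑ b ∈ Icc 1 M2,
      if Squarefree (a * b) ∧ (a * b).Coprime c then js k (a * b) else 0) =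
      ∑ a ∈ Icc 1 M1, ∑ b ∈ Icc 1 M2, ∑ g ∈ Icc 1 M1,
        ((ArithmeticFunction.moebius g : ℤ) : ℝ) * ((ff k c a * (if g ∣ a then 1 else 0)) *
          (ff k c b * (if g ∣ b then 1 else 0))) := by
    refine Finset.sum_congr rfl fun a ha => Finset.sum_congr rfl fun b hb => ?_
    simp only [Finset.mem_Icc] at ha hb
    rw [term_eq k c a b (by omega) (by omega), coprime_ind M1 a b ha.1 ha.2, Finset.mul_sum]
    refine Finset.sum_congr rfl fun g _ => ?_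
    ring
  rw [h1]
  have h2 : ∀ a ∈ Icc 1 M1, (∑ b ∈ Icc 1 M2, ∑ g ∈ Icc 1 M1,
        ((ArithmeticFunction.moebius g : ℤ) : ℝ) * ((ff k c a * (if g ∣ a then 1 else 0)) *
          (ff k c b * (if g ∣ b then 1 else 0)))) =
      ∑ g ∈ Icc 1 M1, ∑ b ∈ Icc 1 M2,
        ((ArithmeticFunction.moebius g : ℤ) : ℝ) * ((ff k c a * (if g ∣ a then 1 else 0)) *
          (ff k c b * (if g ∣ b then 1 else 0))) := fun a _ => Finset.sum_comm
  rw [Finset.sum_congr rfl h2, Finset.sum_comm]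
  refine Finset.sum_congr rfl fun g hg => ?_
  simp only [Finset.mem_Icc] at hg
  rw [← sum_dvd k c g M1 hg.1, ← sum_dvd k c g M2 hg.1, Finset.sum_mul_sum, Finset.mul_sum]
  refine Finset.sum_congr rfl fun a _ => ?_
  rw [Finset.mul_sum]

theorem E2_of (hE1 : ∀ (ε : ℝ) (_ : 0 < ε), ∃ C : ℝ, 0 < C ∧ ∀ (k : ℤ) (c M : ℕ), ¬ IsSquare k →
    Even c → c ≠ 0 → |∑ n ∈ Icc 1 M, if Squarefree n ∧ n.Coprime c then js k n else 0| ≤
      C * Real.sqrt M * (k.natAbs : ℝ) ^ (1 / 4 + ε) * (c : ℝ) ^ ε)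
    (ε : ℝ) (hε : 0 < ε) : ∃ C : ℝ, 0 < C ∧ ∀ (k : ℤ) (c M1 M2 : ℕ), ¬ IsSquare k →
    Even c → c ≠ 0 →
    |∑ a ∈ Icc 1 M1, ∑ b ∈ Icc 1 M2,
      if Squarefree (a * b) ∧ (a * b).Coprime c then js k (a * b) else 0| ≤
      C * ((M1 : ℝ) * M2) ^ (1 / 2 + ε) * (k.natAbs : ℝ) ^ (1 / 2 + ε) * (c : ℝ) ^ ε := by
  obtain ⟨C1, hC1, hE⟩ := hE1 (ε / 4) (by positivity)
  have hsum : Summable (fun g : ℕ => (g : ℝ) ^ (-(1 + ε / 4))) := by
    rw [Real.summable_nat_rpow]; linarith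
  set Z : ℝ := ∑' g : ℕ, (g : ℝ) ^ (-(1 + ε / 4)) with hZ
  have hZ0 : 0 ≤ Z := tsum_nonneg fun g => by positivity
  refine ⟨C1 ^ 2 * (Z + 1), by positivity, ?_⟩
  intro k c M1 M2 hk hc hc0
  have hk0 : 1 ≤ k.natAbs := by
    rcases Nat.eq_zero_or_pos k.natAbs with h | h
    · exact absurd ⟨0, by simpa using Int.natAbs_eq_zero.mp h⟩ hk
    · exact h
  have hkR : (1 : ℝ) ≤ (k.natAbs : ℝ) := by exact_mod_cast hk0
  have hcR : (1 : ℝ) ≤ (c : ℝ) := by exact_mod_cast Nat.one_le_iff_ne_zero.mpr hc0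
  rcases Nat.eq_zero_or_pos M2 with h0 | hM2
  · subst h0
    simp only [Finset.Icc_eq_empty_of_lt (show (0 : ℕ) < 1 by norm_num), Finset.sum_empty,
      Finset.sum_const_zero, abs_zero]
    positivity
  rcases Nat.eq_zero_or_pos M1 with h0 | hM1
  · subst h0
    simp only [Finset.Icc_eq_empty_of_lt (show (0 : ℕ) < 1 by norm_num), Finset.sum_empty,
      abs_zero]
    positivity
  have hM1R : (1 : ℝ) ≤ (M1 : ℝ) := by exact_mod_cast hM1
  have hM2R : (1 : ℝ) ≤ (M2 : ℝ) := by exact_mod_cast hM2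
  rw [main_eq]
  refine (Finset.abs_sum_le_sum_abs _ _).trans ?_
  set K : ℝ := C1 ^ 2 * (Real.sqrt M1 * Real.sqrt M2) * ((k.natAbs : ℝ) ^ (1 / 4 + ε / 4)) ^ 2 *
    ((c : ℝ) ^ (ε / 4)) ^ 2 with hK
  have hK0 : 0 ≤ K := by positivity
  have hterm : ∀ g ∈ Icc 1 M1, |((ArithmeticFunction.moebius g : ℤ) : ℝ) *
        ((ff k c g * ∑ a ∈ Icc 1 (M1 / g), ff k (c * g) a) *
          (ff k c g * ∑ b ∈ Icc 1 (M2 / g), ff k (c * g) b))| ≤
        K * (M1 : ℝ) ^ (3 * (ε / 4)) * (g : ℝ) ^ (-(1 + ε / 4)) := by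
    intro g hg
    simp only [Finset.mem_Icc] at hg
    have hg0 : (0 : ℝ) < (g : ℝ) := by exact_mod_cast (show 0 < g by omega)
    have hg1 : (1 : ℝ) ≤ (g : ℝ) := by exact_mod_cast hg.1
    have hmu : |((ArithmeticFunction.moebius g : ℤ) : ℝ)| ≤ 1 := by
      have := ArithmeticFunction.abs_moebius_le_one (n := g)
      exact_mod_cast this
    have hT : ∀ M : ℕ, |∑ a ∈ Icc 1 (M / g), ff k (c * g) a| ≤
        C1 * (Real.sqrt M / Real.sqrt g) * (k.natAbs : ℝ) ^ (1 / 4 + ε / 4) *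
          ((c : ℝ) ^ (ε / 4) * (g : ℝ) ^ (ε / 4)) := by
      intro M
      have h1 := hE k (c * g) (M / g) hk (hc.mul_right g) (by
        have : g ≠ 0 := by omega
        positivity)
      have h2 : (∑ a ∈ Icc 1 (M / g), ff k (c * g) a) =
        ∑ n ∈ Icc 1 (M / g), if Squarefree n ∧ n.Coprime (c * g) then js k n else 0 := rfl
      rw [h2]
      refine h1.trans ?_
      have h3 : Real.sqrt ((M / g : ℕ) : ℝ) ≤ Real.sqrt M / Real.sqrt g := by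
        rw [← Real.sqrt_div' _ hg0.le]
        exact Real.sqrt_le_sqrt Nat.cast_div_le
      have h4 : ((c * g : ℕ) : ℝ) ^ (ε / 4) = (c : ℝ) ^ (ε / 4) * (g : ℝ) ^ (ε / 4) := by
        push_cast
        exact Real.mul_rpow (by positivity) (by positivity)
      rw [h4]
      gcongr
    have hA := hT M1
    have hB := hT M2
    have hf := ff_abs_le k c g
    rw [abs_mul, abs_mul, abs_mul, abs_mul]
    have hsq : Real.sqrt g * Real.sqrt g = g := Real.mul_self_sqrt hg0.le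
    have hstep1 : |((ArithmeticFunction.moebius g : ℤ) : ℝ)| *
        (|ff k c g| * |∑ a ∈ Icc 1 (M1 / g), ff k (c * g) a| *
          (|ff k c g| * |∑ b ∈ Icc 1 (M2 / g), ff k (c * g) b|)) ≤
        1 * (1 * (C1 * (Real.sqrt M1 / Real.sqrt g) * (k.natAbs : ℝ) ^ (1 / 4 + ε / 4) *
          ((c : ℝ) ^ (ε / 4) * (g : ℝ) ^ (ε / 4))) *
          (1 * (C1 * (Real.sqrt M2 / Real.sqrt g) * (k.natAbs : ℝ) ^ (1 / 4 + ε / 4) *
          ((c : ℝ) ^ (ε / 4) * (g : ℝ) ^ (ε / 4))))) := by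
      gcongr
    refine hstep1.trans ?_
    have hstep2 : 1 * (1 * (C1 * (Real.sqrt M1 / Real.sqrt g) * (k.natAbs : ℝ) ^ (1 / 4 + ε / 4) *
          ((c : ℝ) ^ (ε / 4) * (g : ℝ) ^ (ε / 4))) *
          (1 * (C1 * (Real.sqrt M2 / Real.sqrt g) * (k.natAbs : ℝ) ^ (1 / 4 + ε / 4) *
          ((c : ℝ) ^ (ε / 4) * (g : ℝ) ^ (ε / 4))))) =
        K * ((g : ℝ) ^ (ε / 4) * (g : ℝ) ^ (ε / 4) / (Real.sqrt g * Real.sqrt g)) := by
      rw [hK]
      have : Real.sqrt g ≠ 0 := by positivity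
      field_simp
    rw [hstep2, hsq]
    have hpow : (g : ℝ) ^ (ε / 4) * (g : ℝ) ^ (ε / 4) / g =
        (g : ℝ) ^ (3 * (ε / 4)) * (g : ℝ) ^ (-(1 + ε / 4)) := by
      rw [← Real.rpow_add hg0, ← Real.rpow_add hg0]
      rw [div_eq_iff hg0.ne', ← Real.rpow_add_one hg0.ne']
      congr 1
      ring
    rw [hpow]
    have hmono : (g : ℝ) ^ (3 * (ε / 4)) ≤ (M1 : ℝ) ^ (3 * (ε / 4)) := by
      apply Real.rpow_le_rpow hg0.le
      · exact_mod_cast hg.2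
      · positivity
    calc K * ((g : ℝ) ^ (3 * (ε / 4)) * (g : ℝ) ^ (-(1 + ε / 4)))
        ≤ K * ((M1 : ℝ) ^ (3 * (ε / 4)) * (g : ℝ) ^ (-(1 + ε / 4))) := by gcongr
      _ = _ := by ring
  refine (Finset.sum_le_sum hterm).trans ?_
  rw [← Finset.mul_sum]
  have hZs : ∑ g ∈ Icc 1 M1, (g : ℝ) ^ (-(1 + ε / 4)) ≤ Z + 1 := by
    have := hsum.sum_le_tsum (Icc 1 M1) (fun g _ => by positivity)
    linarith
  have hfin1 : (Real.sqrt M1 * Real.sqrt M2) * (M1 : ℝ) ^ (3 * (ε / 4)) ≤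
      ((M1 : ℝ) * M2) ^ (1 / 2 + ε) := by
    rw [← Real.sqrt_mul (by positivity), Real.sqrt_eq_rpow, Real.rpow_add (by positivity)]
    have h1 : (M1 : ℝ) ^ (3 * (ε / 4)) ≤ ((M1 : ℝ) * M2) ^ ε := by
      calc (M1 : ℝ) ^ (3 * (ε / 4)) ≤ (M1 : ℝ) ^ ε :=
            Real.rpow_le_rpow_of_exponent_le hM1R (by linarith)
        _ ≤ ((M1 : ℝ) * M2) ^ ε := by
            apply Real.rpow_le_rpow (by positivity) _ hε.le
            nlinarith
    gcongr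
  have hfin2 : ((k.natAbs : ℝ) ^ (1 / 4 + ε / 4)) ^ 2 ≤ (k.natAbs : ℝ) ^ (1 / 2 + ε) := by
    rw [← Real.rpow_natCast, ← Real.rpow_mul (by positivity)]
    apply Real.rpow_le_rpow_of_exponent_le hkR
    push_cast; linarith
  have hfin3 : ((c : ℝ) ^ (ε / 4)) ^ 2 ≤ (c : ℝ) ^ ε := by
    rw [← Real.rpow_natCast, ← Real.rpow_mul (by positivity)]
    apply Real.rpow_le_rpow_of_exponent_le hcR
    push_cast; linarith
  calc K * (M1 : ℝ) ^ (3 * (ε / 4)) * ∑ g ∈ Icc 1 M1, (g : ℝ) ^ (-(1 + ε / 4))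
      ≤ K * (M1 : ℝ) ^ (3 * (ε / 4)) * (Z + 1) := by gcongr
    _ = C1 ^ 2 * (Z + 1) * ((Real.sqrt M1 * Real.sqrt M2) * (M1 : ℝ) ^ (3 * (ε / 4))) *
        ((k.natAbs : ℝ) ^ (1 / 4 + ε / 4)) ^ 2 * ((c : ℝ) ^ (ε / 4)) ^ 2 := by rw [hK]; ring
    _ ≤ C1 ^ 2 * (Z + 1) * ((M1 : ℝ) * M2) ^ (1 / 2 + ε) * (k.natAbs : ℝ) ^ (1 / 2 + ε) *
        (c : ℝ) ^ ε := by gcongr

theorem E2 (ε : ℝ) (hε : 0 < ε) : ∃ C : ℝ, 0 < C ∧ ∀ (k : ℤ) (c M1 M2 : ℕ), ¬ IsSquare k →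
    Even c → c ≠ 0 →
    |∑ a ∈ Icc 1 M1, ∑ b ∈ Icc 1 M2,
      if Squarefree (a * b) ∧ (a * b).Coprime c then js k (a * b) else 0| ≤
      C * ((M1 : ℝ) * M2) ^ (1 / 2 + ε) * (k.natAbs : ℝ) ^ (1 / 2 + ε) * (c : ℝ) ^ ε :=
  E2_of Pool.Agent.H708R2.RZE1.E1 ε hε

end

end Pool.Agent.H706R2.RZE2
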